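import Pool.Agent.helper82.Disc.Defs

set_option autoImplicit false

/-! # Digits and integers (module E3) -/

namespace Pool.Agent.helper82.Disc

open Finset

section digits
variable {b : ℕ} [Fact b.Prime]

theorem toNat_lt (k : ℕ) (w : Fin k → ZMod b) : toNat k w < b ^ k := by
  induction k with
  | zero => simp [toNat]
  | succ k ih =>
    have h1 := ih (Fin.tail w)
    have h2 : (w 0).val < b := ZMod.val_lt _
    simp only [toNat]
    calc (w 0).val * b ^ k + toNat k (Fin.tail w) < (w 0).val * b ^ k + b ^ k := by omega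
      _ = ((w 0).val + 1) * b ^ k := by ring
      _ ≤ b * b ^ k := Nat.mul_le_mul_right _ h2
      _ = b ^ (k + 1) := by ring

/-- lexicographic comparison of two-digit expansions -/
theorem toNat_aux (a a' r r' B : ℕ) (hr : r < B) (hr' : r' < B) :
    a * B + r < a' * B + r' ↔ a < a' ∨ (a = a' ∧ r < r') := by
  constructor
  · intro h
    by_contra hcon
    push Not at hcon
    obtain ⟨h1, h2⟩ := hcon
    rcases h1.lt_or_eq with h3 | h3
    · have : (a' + 1) * B ≤ a * B := Nat.mul_le_mul_right _ h3
      rw [add_mul, one_mul] at this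
      omega
    · subst h3
      have := h2 rfl
      omega
  · rintro (h | ⟨rfl, h⟩)
    · have : (a + 1) * B ≤ a' * B := Nat.mul_le_mul_right _ h
      rw [add_mul, one_mul] at this
      omega
    · omega

theorem toNat_inj (k : ℕ) : Function.Injective (toNat (b := b) k) := by
  induction k with
  | zero => intro v w _; exact Subsingleton.elim _ _
  | succ k ih =>
    intro v w h
    simp only [toNat] at h
    have h1 := toNat_lt k (Fin.tail v)
    have h2 := toNat_lt k (Fin.tail w)
    have h3 := toNat_aux (v 0).val (w 0).val _ _ _ h1 h2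
    have h4 := toNat_aux (w 0).val (v 0).val _ _ _ h2 h1
    have h5 : (v 0).val = (w 0).val := by
      by_contra hne
      rcases Nat.lt_or_gt_of_ne hne with h6 | h6
      · exact absurd (h3.2 (Or.inl h6)) (by omega)
      · exact absurd (h4.2 (Or.inl h6)) (by omega)
    have h6 : toNat k (Fin.tail v) = toNat k (Fin.tail w) := by
      rw [h5] at h
      exact Nat.add_left_cancel h
    have h7 : Fin.tail v = Fin.tail w := ih h6
    have h8 : v 0 = w 0 := ZMod.val_injective b h5
    rw [← Fin.cons_self_tail v, ← Fin.cons_self_tail w, h7, h8]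

theorem toNat_surj (k : ℕ) (N : ℕ) (h : N < b ^ k) : ∃ w : Fin k → ZMod b, toNat k w = N := by
  induction k generalizing N with
  | zero =>
    refine ⟨Fin.elim0, ?_⟩
    simp only [pow_zero, Nat.lt_one_iff] at h
    rw [h]
    rfl
  | succ k ih =>
    have hb : 0 < b := (Fact.out : b.Prime).pos
    have hbk : 0 < b ^ k := Nat.pow_pos hb
    obtain ⟨w, hw⟩ := ih (N % b ^ k) (Nat.mod_lt _ hbk)
    have hq : N / b ^ k < b := by
      rw [Nat.div_lt_iff_lt_mul hbk]
      calc N < b ^ (k + 1) := h
        _ = b * b ^ k := by ring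
    refine ⟨Fin.cons ((N / b ^ k : ℕ) : ZMod b) w, ?_⟩
    simp only [toNat, Fin.cons_zero, Fin.tail_cons]
    rw [hw, ZMod.val_natCast_of_lt hq]
    exact Nat.div_add_mod' N (b ^ k)

theorem om_eq (k : ℕ) (w : Fin k → ZMod b) : om k w = (toNat k w : ℝ) / (b : ℝ) ^ k := by
  have hb : (b : ℝ) ≠ 0 := by exact_mod_cast (Fact.out : b.Prime).ne_zero
  induction k with
  | zero => simp [om, toNat]
  | succ k ih =>
    simp only [om, toNat]
    rw [ih]
    push_cast
    field_simp
    ring

theorem lt01_eq (k : ℕ) (y w : Fin k → ZMod b) :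
    lt01 k y w = if toNat k y < toNat k w then 1 else 0 := by
  induction k with
  | zero => simp [lt01, toNat]
  | succ k ih =>
    simp only [lt01, toNat]
    rw [ih]
    have h3 := toNat_aux (y 0).val (w 0).val _ _ _ (toNat_lt k (Fin.tail y))
      (toNat_lt k (Fin.tail w))
    have hval : y 0 = w 0 ↔ (y 0).val = (w 0).val :=
      ⟨fun h => by rw [h], fun h => ZMod.val_injective b h⟩
    by_cases c1 : (y 0).val < (w 0).val
    · rw [if_pos c1, if_pos (h3.2 (Or.inl c1))]
    · rw [if_neg c1]
      by_cases c2 : y 0 = w 0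
      · rw [if_pos c2]
        by_cases c3 : toNat k (Fin.tail y) < toNat k (Fin.tail w)
        · rw [if_pos c3, if_pos (h3.2 (Or.inr ⟨hval.1 c2, c3⟩))]
        · rw [if_neg c3, if_neg]
          intro h
          rcases h3.1 h with h | h
          · exact c1 h
          · exact c3 h.2
      · rw [if_neg c2, if_neg]
        intro h
        rcases h3.1 h with h | h
        · exact c1 h
        · exact c2 (hval.2 h.1)

end digits

end Pool.Agent.helper82.Disc
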